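import Mathlib

/-! MW-E10. Gluing lemma. Define `g P = G k P` for the least `k` with `P.1 ≤ m k` (exists because `m → ∞`, `Nat.find`).
For `P` with `m (k-1) < P.1 < m k` the index is constant near `P`; for `P.1 = m k` the index near `P` is `k` or `k + 1`, and
`G k = G (k+1)` near `P`, so `g = G k` near `P` in both cases. So `g` is locally equal to a smooth function. -/

set_option autoImplicit false

namespace Pool.Agent.Helper98.MW

open Topology Filter

theorem glue {m : ℕ → ℝ} (hm : StrictMono m) (hm' : Tendsto m atTop atTop)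
    {G : ℕ → ℝ × ℝ → ℝ} (hG : ∀ k, ContDiff ℝ (⊤ : ℕ∞) (G k))
    (hagree : ∀ k, ∃ τ > 0, ∀ P : ℝ × ℝ, |P.1 - m k| < τ → G k P = G (k + 1) P) :
    ∃ g : ℝ × ℝ → ℝ, ContDiff ℝ (⊤ : ℕ∞) g ∧
      ∀ P : ℝ × ℝ, ∃ k, g =ᶠ[𝓝 P] G k ∧ P.1 ≤ m k ∧ (∀ j, j < k → m j < P.1) := by
  classical
  have hex : ∀ P : ℝ × ℝ, ∃ k, P.1 ≤ m k := fun P =>
    (hm'.eventually (eventually_ge_atTop P.1)).exists
  have key : ∀ P : ℝ × ℝ, (fun Q : ℝ × ℝ => G (Nat.find (hex Q)) Q) =ᶠ[𝓝 P]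
      G (Nat.find (hex P)) := by
    intro P
    have h1 : P.1 ≤ m (Nat.find (hex P)) := Nat.find_spec (hex P)
    have h2 : ∀ j < Nat.find (hex P), m j < P.1 := fun j hj => not_le.1 (Nat.find_min (hex P) hj)
    generalize Nat.find (hex P) = k at h1 h2
    have h3 : ∀ᶠ Q : ℝ × ℝ in 𝓝 P, ∀ j < k, m j < Q.1 := by
      have h : ∀ j ∈ Finset.range k, ∀ᶠ Q : ℝ × ℝ in 𝓝 P, m j < Q.1 := fun j hj =>
        (continuous_fst.tendsto P).eventually (lt_mem_nhds (h2 j (Finset.mem_range.1 hj)))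
      have h' := (Filter.eventually_all_finset (Finset.range k)).2 h
      filter_upwards [h'] with Q hQ j hj using hQ j (Finset.mem_range.2 hj)
    rcases lt_or_eq_of_le h1 with h1 | h1
    · have h4 : ∀ᶠ Q : ℝ × ℝ in 𝓝 P, Q.1 < m k :=
        (continuous_fst.tendsto P).eventually (gt_mem_nhds h1)
      filter_upwards [h3, h4] with Q hQ3 hQ4
      have h5 : Nat.find (hex Q) = k :=
        (Nat.find_eq_iff (hex Q)).2 ⟨hQ4.le, fun j hj => not_le.2 (hQ3 j hj)⟩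
      rw [h5]
    · obtain ⟨τ, hτ, ht⟩ := hagree k
      have h4 : ∀ᶠ Q : ℝ × ℝ in 𝓝 P, Q.1 < m (k + 1) :=
        (continuous_fst.tendsto P).eventually (gt_mem_nhds (h1 ▸ hm (Nat.lt_succ_self k)))
      have h5 : ∀ᶠ Q : ℝ × ℝ in 𝓝 P, |Q.1 - m k| < τ := by
        have hc : Continuous fun Q : ℝ × ℝ => |Q.1 - m k| := by fun_prop
        refine (hc.tendsto P).eventually (gt_mem_nhds ?_)
        simpa [h1] using hτ
      filter_upwards [h3, h4, h5] with Q hQ3 hQ4 hQ5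
      by_cases h6 : Q.1 ≤ m k
      · have h7 : Nat.find (hex Q) = k :=
          (Nat.find_eq_iff (hex Q)).2 ⟨h6, fun j hj => not_le.2 (hQ3 j hj)⟩
        rw [h7]
      · have h7 : Nat.find (hex Q) = k + 1 := by
          refine (Nat.find_eq_iff (hex Q)).2 ⟨hQ4.le, fun j hj => not_le.2 ?_⟩
          exact lt_of_le_of_lt (hm.monotone (Nat.lt_succ_iff.1 hj)) (not_le.1 h6)
        rw [h7, ht Q hQ5]
  refine ⟨fun Q => G (Nat.find (hex Q)) Q, ?_, fun P => ⟨Nat.find (hex P), key P,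
    Nat.find_spec (hex P), fun j hj => not_le.1 (Nat.find_min (hex P) hj)⟩⟩
  rw [contDiff_iff_contDiffAt]
  intro P
  exact ((hG (Nat.find (hex P))).contDiffAt).congr_of_eventuallyEq (key P)

end Pool.Agent.Helper98.MW
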