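import Pool.Agent.Helper98.MW.E.Seq

/-! MW-E08. Neighbouring quadratics agree between the walls: for `ρ_k ≤ r ≤ ρ_{k+1} = ρ_k + d`, `x = r - ρ_k`:
`F + β x - σ x^2 = F' + β' (x - d) - σ' (x-d)|x-d|` with `|x - d| = d - x`, `σ' = -σ`, `β' = β - 2σ d`,
`F' = F + β d - σ d^2`: the right side is `F' + β' (x-d) - σ (x - d)^2`. -/

namespace Pool.Agent.Helper98.MW

theorem quad_match {k : ℕ} {P : ℝ × ℝ} (h1 : rho k ≤ P.1) (h2 : P.1 ≤ rho (k + 1)) :
    quad (sg k) (rho k) (FF k) (be k) P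
      = quad (sg (k + 1)) (rho (k + 1)) (FF (k + 1)) (be (k + 1)) P := by
  have hr : rho (k + 1) = rho k + dd k := rho_succ k
  have e1 : |P.1 - rho k| = P.1 - rho k := abs_of_nonneg (by linarith)
  have e2 : |P.1 - rho (k + 1)| = -(P.1 - rho (k + 1)) := abs_of_nonpos (by linarith)
  have hF : FF (k + 1) = FF k + be k * dd k - sg k * dd k ^ 2 := rfl
  unfold quad
  rw [e1, e2, hF, hr, be_succ, sg_succ]
  ring

end Pool.Agent.Helper98.MW
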