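import Pool.Agent.Helper98.MW.E.Defs

/-! MW-E01. Away from the circle the piece is the quadratic: `(r-ρ)/ε` has absolute value `≥ 1`, so
`ε^2 w = -(r-ρ)|r-ρ|`. -/

namespace Pool.Agent.Helper98.MW

theorem piece_outer {a b : ℝ} {w : ℝ × ℝ → ℝ} (hw : Wall a b w) (σ ρ F β : ℝ) {ε : ℝ}
    (hε : 0 < ε) {P : ℝ × ℝ} (h : ε ≤ |P.1 - ρ|) :
    piece w σ ρ F β ε P = quad σ ρ F β P := by
  have h1 : 1 ≤ |(P.1 - ρ) / ε| := by
    rw [abs_div, abs_of_pos hε, le_div_iff₀ hε, one_mul]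
    exact h
  unfold piece quad
  rw [hw.outer _ _ h1, abs_div, abs_of_pos hε]
  field_simp
  ring

theorem contDiff_piece {a b : ℝ} {w : ℝ × ℝ → ℝ} (hw : Wall a b w) (σ ρ F β ε : ℝ) :
    ContDiff ℝ (⊤ : ℕ∞) (piece w σ ρ F β ε) := by
  have hs := hw.smooth
  unfold piece
  have h1 : ContDiff ℝ (⊤ : ℕ∞)
      (fun P : ℝ × ℝ => (((P.1 - ρ) / ε, -σ * ρ * P.2 / ε) : ℝ × ℝ)) := by
    fun_prop
  have h2 : ContDiff ℝ (⊤ : ℕ∞)
      (fun P : ℝ × ℝ => w ((P.1 - ρ) / ε, -σ * ρ * P.2 / ε)) := hs.comp h1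
  have h3 : ContDiff ℝ (⊤ : ℕ∞) (fun P : ℝ × ℝ => F + β * (P.1 - ρ)) := by
    fun_prop
  exact h3.add (contDiff_const.mul h2)

theorem contDiff_startPiece (ε : ℝ) : ContDiff ℝ (⊤ : ℕ∞) (startPiece ε) := by
  unfold startPiece
  have h1 : ContDiff ℝ (⊤ : ℕ∞) (fun P : ℝ × ℝ => (P.1 - 1) / ε) := by fun_prop
  have h2 : ContDiff ℝ (⊤ : ℕ∞) (fun P : ℝ × ℝ => Real.smoothTransition ((P.1 - 1) / ε)) :=
    (Real.smoothTransition.contDiff (n := (⊤ : ℕ∞))).comp h1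
  have h3 : ContDiff ℝ (⊤ : ℕ∞) (fun P : ℝ × ℝ => (P.1 - 1) ^ 2) := by fun_prop
  exact h3.mul h2

theorem startPiece_left {ε : ℝ} (hε : 0 < ε) {P : ℝ × ℝ} (h : P.1 ≤ 1) : startPiece ε P = 0 := by
  unfold startPiece
  rw [Real.smoothTransition.zero_of_nonpos, mul_zero]
  exact div_nonpos_of_nonpos_of_nonneg (by linarith) hε.le

/-- for `r ≥ 1 + ε` the first piece is the quadratic of the wall `k = 0` -/
theorem startPiece_right {ε : ℝ} (hε : 0 < ε) {P : ℝ × ℝ} (h : 1 + ε ≤ P.1) :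
    startPiece ε P = quad (-1) 1 0 0 P := by
  unfold startPiece quad
  have h1 : 0 < P.1 - 1 := by linarith
  rw [Real.smoothTransition.one_of_one_le, abs_of_pos h1]
  · ring
  · rw [le_div_iff₀ hε]
    linarith

end Pool.Agent.Helper98.MW
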