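import Pool.Agent.Helper98.MW.A.Add
import Pool.Agent.Helper98.MW.A.Comp
import Pool.Agent.Helper98.MW.E.PieceOuter

/-! MW-E02. Derivatives of the piece at `P = (r, t)` with `X = (r - ρ)/ε`, `Y = -σ ρ t/ε`, `σ^2 = 1` (chain rule with the
affine map `(r, t) ↦ (X, Y)`): all terms below; the affine part `F + β (r - ρ)` has zero second derivative. -/

namespace Pool.Agent.Helper98.MW

/-- the linear part of `(r, t) ↦ (X, Y)` -/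
private noncomputable def pL (a b : ℝ) : ℝ × ℝ →L[ℝ] ℝ × ℝ :=
  (a • ContinuousLinearMap.fst ℝ ℝ ℝ).prod (b • ContinuousLinearMap.snd ℝ ℝ ℝ)

private theorem pL_apply (a b : ℝ) (Q : ℝ × ℝ) : pL a b Q = (a * Q.1, b * Q.2) := by
  simp [pL]

private theorem piece_eq (w : ℝ × ℝ → ℝ) (σ ρ F β ε : ℝ) :
    piece w σ ρ F β ε = fun Q => (F + β * (Q.1 - ρ))
      + (σ * ε ^ 2) * w (pL ε⁻¹ (-σ * ρ / ε) Q + (-ρ / ε, 0)) := by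
  funext Q
  have h : pL ε⁻¹ (-σ * ρ / ε) Q + (-ρ / ε, 0) = ((Q.1 - ρ) / ε, -σ * ρ * Q.2 / ε) := by
    rw [pL_apply]
    ext
    · simp only [Prod.fst_add]
      ring
    · simp only [Prod.snd_add]
      ring
  simp only [piece]
  rw [h]

private theorem pt_eq (σ ρ ε : ℝ) (Q : ℝ × ℝ) :
    pL ε⁻¹ (-σ * ρ / ε) Q + (-ρ / ε, 0) = ((Q.1 - ρ) / ε, -σ * ρ * Q.2 / ε) := by
  rw [pL_apply]
  ext
  · simp only [Prod.fst_add]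
    ring
  · simp only [Prod.snd_add]
    ring

private theorem hasFDerivAt_aff (ρ F β : ℝ) (Q : ℝ × ℝ) :
    HasFDerivAt (fun Q : ℝ × ℝ => F + β * (Q.1 - ρ)) (β • ContinuousLinearMap.fst ℝ ℝ ℝ) Q := by
  have h1 : HasFDerivAt (fun Q : ℝ × ℝ => Q.1) (ContinuousLinearMap.fst ℝ ℝ ℝ) Q := hasFDerivAt_fst
  exact ((h1.sub_const ρ).const_mul β).const_add F

private theorem contDiff_aff (ρ F β : ℝ) :
    ContDiff ℝ (⊤ : ℕ∞) (fun Q : ℝ × ℝ => F + β * (Q.1 - ρ)) :=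
  contDiff_const.add (contDiff_const.mul (contDiff_fst.sub contDiff_const))

private theorem H2_aff (ρ F β : ℝ) (P v u : ℝ × ℝ) :
    H2 (fun Q : ℝ × ℝ => F + β * (Q.1 - ρ)) P v u = 0 := by
  unfold H2
  have h : fderiv ℝ (fun Q : ℝ × ℝ => F + β * (Q.1 - ρ))
      = fun _ => β • ContinuousLinearMap.fst ℝ ℝ ℝ := by
    funext Q
    exact (hasFDerivAt_aff ρ F β Q).fderiv
  rw [h]
  simp

private theorem contDiff_inner {w : ℝ × ℝ → ℝ} (hw : ContDiff ℝ (⊤ : ℕ∞) w) (L : ℝ × ℝ →L[ℝ] ℝ × ℝ)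
    (c : ℝ × ℝ) : ContDiff ℝ (⊤ : ℕ∞) (fun Q => w (L Q + c)) :=
  hw.comp (L.contDiff.add contDiff_const)

private theorem piece_H2 {w : ℝ × ℝ → ℝ} (hw : ContDiff ℝ (⊤ : ℕ∞) w) (σ ρ F β ε : ℝ)
    (P v u : ℝ × ℝ) :
    H2 (piece w σ ρ F β ε) P v u
      = (σ * ε ^ 2) * H2 w ((P.1 - ρ) / ε, -σ * ρ * P.2 / ε) (pL ε⁻¹ (-σ * ρ / ε) v)
          (pL ε⁻¹ (-σ * ρ / ε) u) := by
  rw [piece_eq]
  rw [H2_add (contDiff_aff ρ F β) (contDiff_const.mul (contDiff_inner hw _ _)),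
    H2_const_mul (contDiff_inner hw _ _), H2_comp_affine hw, H2_aff, pt_eq, zero_add]

private theorem piece_fd {w : ℝ × ℝ → ℝ} (hw : ContDiff ℝ (⊤ : ℕ∞) w) (σ ρ F β ε : ℝ)
    (P v : ℝ × ℝ) :
    fderiv ℝ (piece w σ ρ F β ε) P v
      = β * v.1 + (σ * ε ^ 2) * fderiv ℝ w ((P.1 - ρ) / ε, -σ * ρ * P.2 / ε)
          (pL ε⁻¹ (-σ * ρ / ε) v) := by
  rw [piece_eq]
  have hw1 : Differentiable ℝ w := hw.differentiable (by simp)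
  have h1 : HasFDerivAt (fun Q => pL ε⁻¹ (-σ * ρ / ε) Q + (-ρ / ε, (0 : ℝ)))
      (pL ε⁻¹ (-σ * ρ / ε)) P :=
    (pL ε⁻¹ (-σ * ρ / ε)).hasFDerivAt.add_const _
  have h2 : HasFDerivAt w (fderiv ℝ w (pL ε⁻¹ (-σ * ρ / ε) P + (-ρ / ε, 0)))
      (pL ε⁻¹ (-σ * ρ / ε) P + (-ρ / ε, 0)) := (hw1 _).hasFDerivAt
  have h3 := (h2.comp P h1).const_mul (σ * ε ^ 2)
  have h4 := (hasFDerivAt_aff ρ F β P).add h3
  have h5 : fderiv ℝ (fun Q => (F + β * (Q.1 - ρ))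
      + (σ * ε ^ 2) * w (pL ε⁻¹ (-σ * ρ / ε) Q + (-ρ / ε, 0))) P = _ := h4.fderiv
  rw [h5, pt_eq]
  simp

private theorem H2_smul_smul (w : ℝ × ℝ → ℝ) (Q v u : ℝ × ℝ) (a b : ℝ) :
    H2 w Q (a • v) (b • u) = a * b * H2 w Q v u := by
  unfold H2
  simp only [map_smul, smul_apply, smul_eq_mul]
  ring

private theorem pL_e1 (a b : ℝ) : pL a b (1, 0) = a • ((1, 0) : ℝ × ℝ) := by
  rw [pL_apply]
  simp

private theorem pL_e2 (a b : ℝ) : pL a b (0, 1) = b • ((0, 1) : ℝ × ℝ) := by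
  rw [pL_apply]
  simp

theorem piece_H2_rr {w : ℝ × ℝ → ℝ} (hw : ContDiff ℝ (⊤ : ℕ∞) w) {σ : ℝ} (hσ : σ ^ 2 = 1)
    (ρ F β : ℝ) {ε : ℝ} (hε : 0 < ε) (P : ℝ × ℝ) :
    H2 (piece w σ ρ F β ε) P (1, 0) (1, 0)
      = σ * H2 w ((P.1 - ρ) / ε, -σ * ρ * P.2 / ε) (1, 0) (1, 0) := by
  rw [piece_H2 hw, pL_e1, H2_smul_smul]
  have hε' : ε ≠ 0 := hε.ne'
  field_simp

theorem piece_H2_rt {w : ℝ × ℝ → ℝ} (hw : ContDiff ℝ (⊤ : ℕ∞) w) {σ : ℝ} (hσ : σ ^ 2 = 1)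
    (ρ F β : ℝ) {ε : ℝ} (hε : 0 < ε) (P : ℝ × ℝ) :
    H2 (piece w σ ρ F β ε) P (1, 0) (0, 1)
      = -ρ * H2 w ((P.1 - ρ) / ε, -σ * ρ * P.2 / ε) (1, 0) (0, 1) := by
  rw [piece_H2 hw, pL_e1, pL_e2, H2_smul_smul]
  have hε' : ε ≠ 0 := hε.ne'
  have h : σ * ε ^ 2 * (ε⁻¹ * (-σ * ρ / ε)) = -ρ := by
    field_simp
    linear_combination (-ρ) * hσ
  rw [← mul_assoc, h]

theorem piece_H2_tt {w : ℝ × ℝ → ℝ} (hw : ContDiff ℝ (⊤ : ℕ∞) w) {σ : ℝ} (hσ : σ ^ 2 = 1)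
    (ρ F β : ℝ) {ε : ℝ} (hε : 0 < ε) (P : ℝ × ℝ) :
    H2 (piece w σ ρ F β ε) P (0, 1) (0, 1)
      = σ * ρ ^ 2 * H2 w ((P.1 - ρ) / ε, -σ * ρ * P.2 / ε) (0, 1) (0, 1) := by
  rw [piece_H2 hw, pL_e2, H2_smul_smul]
  have hε' : ε ≠ 0 := hε.ne'
  have h : σ * ε ^ 2 * (-σ * ρ / ε * (-σ * ρ / ε)) = σ * ρ ^ 2 := by
    field_simp
    linear_combination (σ * ρ ^ 2) * hσ
  rw [← mul_assoc, h]

theorem piece_fderiv_r {w : ℝ × ℝ → ℝ} (hw : ContDiff ℝ (⊤ : ℕ∞) w) {σ : ℝ}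
    (ρ F β : ℝ) {ε : ℝ} (hε : 0 < ε) (P : ℝ × ℝ) :
    fderiv ℝ (piece w σ ρ F β ε) P (1, 0)
      = β + σ * ε * fderiv ℝ w ((P.1 - ρ) / ε, -σ * ρ * P.2 / ε) (1, 0) := by
  rw [piece_fd hw, pL_e1, map_smul, smul_eq_mul]
  have hε' : ε ≠ 0 := hε.ne'
  field_simp

theorem piece_fderiv_t {w : ℝ × ℝ → ℝ} (hw : ContDiff ℝ (⊤ : ℕ∞) w) {σ : ℝ} (hσ : σ ^ 2 = 1)
    (ρ F β : ℝ) {ε : ℝ} (hε : 0 < ε) (P : ℝ × ℝ) :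
    fderiv ℝ (piece w σ ρ F β ε) P (0, 1)
      = -ε * ρ * fderiv ℝ w ((P.1 - ρ) / ε, -σ * ρ * P.2 / ε) (0, 1) := by
  rw [piece_fd hw, pL_e2, map_smul, smul_eq_mul]
  have hε' : ε ≠ 0 := hε.ne'
  have h : σ * ε ^ 2 * (-σ * ρ / ε) = -ε * ρ := by
    field_simp
    linear_combination (-ρ) * hσ
  simp only [mul_zero, zero_add]
  rw [← mul_assoc, h]

end Pool.Agent.Helper98.MW
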