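import Pool.Agent.Helper98.MW.A.Tube
import Pool.Agent.Helper98.MW.A.Basic
import Pool.Agent.Helper98.MW.E.PieceH2

/-! MW-E03. The wall piece is admissible near its circle for small `ε`. With `r = ρ + ε X` and E02:
`h11 = σ wXX`, `h12 = -(ρ/r) wXY - (1 - ε ρ wY)/r^2`, `h22 = (β + σ ε wX)/r + σ ρ^2 wYY/r^2`, functions of
`(ε, (X, Y))` that are continuous at `ε = 0` (`r → ρ ≥ 1`); the value at `ε = 0` is
`(σ wXX, -(1/ρ^2 + wXY), σ (σ β/ρ + wYY))`, `Good` by `hw.good` and `good_flip` (`σ = 1`) or `good_neg` (`σ = -1`).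
`good_tube` with `S = [-1,1] × [0,1]`; `Y` is reduced mod `1` (`H2_periodic`, `fderiv_periodic`, shift `(0, 1)`).
The bounds: `wX`, `wY`, `w` are bounded on `[-1,1] × ℝ` (periodic, continuous), take `ε` small; for `|X| ≥ 1` `w` does
not depend on `Y`. -/

namespace Pool.Agent.Helper98.MW

private theorem per_int {a b : ℝ} {w : ℝ × ℝ → ℝ} (hw : Wall a b w) (n : ℤ) (Q : ℝ × ℝ) :
    w (Q + (0, (n : ℝ))) = w Q := by
  obtain ⟨X, Y⟩ := Q
  have h : Function.Periodic (fun Y => w (X, Y)) 1 := fun Y => hw.periodic X Y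
  have h2 := h.int_mul n Y
  simp only [mul_one] at h2
  rw [Prod.mk_add_mk, add_zero]
  exact h2

private theorem red (X Y : ℝ) :
    ((X, Y) : ℝ × ℝ) = (X, Int.fract Y) + (0, ((⌊Y⌋ : ℤ) : ℝ)) := by
  rw [Prod.mk_add_mk, add_zero, Int.fract_add_floor]

private theorem w_red {a b : ℝ} {w : ℝ × ℝ → ℝ} (hw : Wall a b w) (X Y : ℝ) :
    w (X, Y) = w (X, Int.fract Y) := by
  conv_lhs => rw [red X Y]
  exact per_int hw _ _

private theorem f_red {a b : ℝ} {w : ℝ × ℝ → ℝ} (hw : Wall a b w) (X Y : ℝ) :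
    fderiv ℝ w (X, Y) = fderiv ℝ w (X, Int.fract Y) := by
  conv_lhs => rw [red X Y]
  exact fderiv_periodic (per_int hw _) _

private theorem H_red {a b : ℝ} {w : ℝ × ℝ → ℝ} (hw : Wall a b w) (X Y : ℝ) (v u : ℝ × ℝ) :
    H2 w (X, Y) v u = H2 w (X, Int.fract Y) v u := by
  conv_lhs => rw [red X Y]
  exact H2_periodic (per_int hw _) _ _ _

private theorem mem_S {X Y : ℝ} (hX : |X| ≤ 1) :
    ((X, Int.fract Y) : ℝ × ℝ) ∈ Set.Icc (-1 : ℝ) 1 ×ˢ Set.Icc (0 : ℝ) 1 :=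
  ⟨abs_le.1 hX, Int.fract_nonneg Y, (Int.fract_lt_one Y).le⟩

private theorem cont_H {w : ℝ × ℝ → ℝ} (hw : ContDiff ℝ (⊤ : ℕ∞) w) (v u : ℝ × ℝ) :
    Continuous (fun q : ℝ × (ℝ × ℝ) => H2 w q.2 v u) :=
  (H2_continuous hw).comp (continuous_snd.prodMk (continuous_const.prodMk continuous_const))

private theorem cont_f {w : ℝ × ℝ → ℝ} (hw : ContDiff ℝ (⊤ : ℕ∞) w) (v : ℝ × ℝ) :
    Continuous (fun Q : ℝ × ℝ => fderiv ℝ w Q v) :=
  (hw.continuous_fderiv (by simp)).clm_apply continuous_const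

theorem piece_inner {w : ℝ × ℝ → ℝ} {σ ρ β : ℝ} (hσ : σ = 1 ∨ σ = -1) (hρ : 1 ≤ ρ)
    (hβ : |β| ≤ 1 / 2) (hw : Wall (1 / ρ ^ 2) (σ * β / ρ) w) (F : ℝ) :
    ∃ ε0 > 0, ∀ ε : ℝ, 0 < ε → ε ≤ ε0 →
      (∀ P : ℝ × ℝ, |P.1 - ρ| ≤ ε → Adm (piece w σ ρ F β ε) P) ∧
      (∀ r t t' : ℝ, |piece w σ ρ F β ε (r, t) - piece w σ ρ F β ε (r, t')| ≤ 1) := by
  have hσ2 : σ ^ 2 = 1 := by rcases hσ with h | h <;> rw [h] <;> norm_num
  have hσa : |σ| = 1 := by rcases hσ with h | h <;> rw [h] <;> norm_num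
  have hρ0 : ρ ≠ 0 := by linarith
  have hsm := hw.smooth
  have hS : IsCompact (Set.Icc (-1 : ℝ) 1 ×ˢ Set.Icc (0 : ℝ) 1) := isCompact_Icc.prod isCompact_Icc
  obtain ⟨M0, hM0⟩ := hS.exists_bound_of_continuousOn hsm.continuous.continuousOn
  obtain ⟨M1, hM1⟩ := hS.exists_bound_of_continuousOn (cont_f hsm (1, 0)).continuousOn
  obtain ⟨M2, hM2⟩ := hS.exists_bound_of_continuousOn (cont_f hsm (0, 1)).continuousOn
  have hr : ∀ k : ℝ × ℝ, ContinuousAt (fun q : ℝ × (ℝ × ℝ) => ρ + q.1 * q.2.1) (0, k) := fun k =>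
    (continuous_const.add (continuous_fst.mul (continuous_fst.comp continuous_snd))).continuousAt
  have hr0 : ∀ k : ℝ × ℝ, (fun q : ℝ × (ℝ × ℝ) => ρ + q.1 * q.2.1) (0, k) ≠ 0 := by
    intro k
    simp only [zero_mul, add_zero]
    exact hρ0
  obtain ⟨δ, hδ, htube⟩ := good_tube hS
    (f := fun q => σ * H2 w q.2 (1, 0) (1, 0))
    (g := fun q => -ρ * H2 w q.2 (1, 0) (0, 1) / (ρ + q.1 * q.2.1)
      - (1 + -q.1 * ρ * fderiv ℝ w q.2 (0, 1)) / (ρ + q.1 * q.2.1) ^ 2)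
    (h := fun q => (β + σ * q.1 * fderiv ℝ w q.2 (1, 0)) / (ρ + q.1 * q.2.1)
      + σ * ρ ^ 2 * H2 w q.2 (0, 1) (0, 1) / (ρ + q.1 * q.2.1) ^ 2)
    (fun k _ => (continuous_const.mul (cont_H hsm _ _)).continuousAt)
    (fun k _ => by
      refine ContinuousAt.sub (ContinuousAt.div ?_ (hr k) (hr0 k))
        (ContinuousAt.div ?_ ((hr k).pow 2) (pow_ne_zero 2 (hr0 k)))
      · exact (continuous_const.mul (cont_H hsm _ _)).continuousAt
      · exact (continuous_const.add (((continuous_fst.neg).mul continuous_const).mul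
          ((cont_f hsm _).comp continuous_snd))).continuousAt)
    (fun k _ => by
      refine ContinuousAt.add (ContinuousAt.div ?_ (hr k) (hr0 k))
        (ContinuousAt.div ?_ ((hr k).pow 2) (pow_ne_zero 2 (hr0 k)))
      · exact (continuous_const.add ((continuous_const.mul continuous_fst).mul
          ((cont_f hsm _).comp continuous_snd))).continuousAt
      · exact (continuous_const.mul (cont_H hsm _ _)).continuousAt)
    (fun k _ => by
      obtain ⟨X, Y⟩ := k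
      have hg := hw.good X Y
      simp only [zero_mul, add_zero, neg_zero, mul_zero]
      have e1 : -ρ * H2 w (X, Y) (1, 0) (0, 1) / ρ - 1 / ρ ^ 2
          = -(1 / ρ ^ 2 + H2 w (X, Y) (1, 0) (0, 1)) := by
        field_simp
        ring
      have e2 : β / ρ + σ * ρ ^ 2 * H2 w (X, Y) (0, 1) (0, 1) / ρ ^ 2
          = β / ρ + σ * H2 w (X, Y) (0, 1) (0, 1) := by
        field_simp
      rw [e1, e2]
      rcases hσ with h | h
      · subst h
        have := good_flip hg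
        simpa only [one_mul] using this
      · subst h
        have := good_neg hg
        have e3 : -(-1 * β / ρ + H2 w (X, Y) (0, 1) (0, 1))
            = β / ρ + -1 * H2 w (X, Y) (0, 1) (0, 1) := by ring
        rw [e3] at this
        simpa only [neg_mul, one_mul] using this)
  have hM0' : ∀ X Y : ℝ, |X| ≤ 1 → |w (X, Y)| ≤ M0 := by
    intro X Y hX
    rw [w_red hw X Y]
    exact hM0 _ (mem_S hX)
  have hM1' : ∀ X Y : ℝ, |X| ≤ 1 → |fderiv ℝ w (X, Y) (1, 0)| ≤ M1 := by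
    intro X Y hX
    rw [f_red hw X Y]
    exact hM1 _ (mem_S hX)
  have hM2' : ∀ X Y : ℝ, |X| ≤ 1 → |fderiv ℝ w (X, Y) (0, 1)| ≤ M2 := by
    intro X Y hX
    rw [f_red hw X Y]
    exact hM2 _ (mem_S hX)
  have hM0n : 0 ≤ M0 := (abs_nonneg _).trans (hM0' 0 0 (by norm_num))
  have hM1n : 0 ≤ M1 := (abs_nonneg _).trans (hM1' 0 0 (by norm_num))
  have hM2n : 0 ≤ M2 := (abs_nonneg _).trans (hM2' 0 0 (by norm_num))
  have hρp : 0 < ρ := by linarith
  refine ⟨min (min (δ / 2) 1) (min (1 / (2 * (M1 + 1))) (min (1 / (ρ * (M2 + 1)))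
    (1 / (2 * (M0 + 1))))), by positivity, ?_⟩
  intro ε hε hε0
  have hεδ : ε ≤ δ / 2 := hε0.trans ((min_le_left _ _).trans (min_le_left _ _))
  have hε1 : ε ≤ 1 := hε0.trans ((min_le_left _ _).trans (min_le_right _ _))
  have hεM1 : ε * (2 * (M1 + 1)) ≤ 1 := by
    have : ε ≤ 1 / (2 * (M1 + 1)) := hε0.trans ((min_le_right _ _).trans (min_le_left _ _))
    rwa [le_div_iff₀ (by positivity)] at this
  have hεM2 : ε * (ρ * (M2 + 1)) ≤ 1 := by
    have : ε ≤ 1 / (ρ * (M2 + 1)) := hε0.trans ((min_le_right _ _).trans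
      ((min_le_right _ _).trans (min_le_left _ _)))
    rwa [le_div_iff₀ (by positivity)] at this
  have hεM0 : ε * (2 * (M0 + 1)) ≤ 1 := by
    have : ε ≤ 1 / (2 * (M0 + 1)) := hε0.trans ((min_le_right _ _).trans
      ((min_le_right _ _).trans (min_le_right _ _)))
    rwa [le_div_iff₀ (by positivity)] at this
  have hεa : |ε| < δ := by
    rw [abs_of_pos hε]
    linarith
  constructor
  · intro P hP
    have hX : |(P.1 - ρ) / ε| ≤ 1 := by
      rw [abs_div, abs_of_pos hε, div_le_one hε]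
      exact hP
    set X := (P.1 - ρ) / ε with hXdef
    set Y := -σ * ρ * P.2 / ε with hYdef
    have hrP : ρ + ε * X = P.1 := by
      rw [hXdef]
      field_simp
      ring
    have e11 : h11 (piece w σ ρ F β ε) P = σ * H2 w (X, Y) (1, 0) (1, 0) := by
      rw [h11, piece_H2_rr hsm hσ2 ρ F β hε P]
    have e12 : h12 (piece w σ ρ F β ε) P
        = -ρ * H2 w (X, Y) (1, 0) (0, 1) / (ρ + ε * X)
          - (1 + -ε * ρ * fderiv ℝ w (X, Y) (0, 1)) / (ρ + ε * X) ^ 2 := by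
      rw [h12, piece_H2_rt hsm hσ2 ρ F β hε P, piece_fderiv_t hsm hσ2 ρ F β hε P, hrP]
    have e22 : h22 (piece w σ ρ F β ε) P
        = (β + σ * ε * fderiv ℝ w (X, Y) (1, 0)) / (ρ + ε * X)
          + σ * ρ ^ 2 * H2 w (X, Y) (0, 1) (0, 1) / (ρ + ε * X) ^ 2 := by
      rw [h22, piece_H2_tt hsm hσ2 ρ F β hε P, piece_fderiv_r hsm ρ F β hε P, hrP]
    refine ⟨?_, ?_, ?_⟩
    · rw [e11, e12, e22, H_red hw X Y, H_red hw X Y, H_red hw X Y, f_red hw X Y]
      exact htube ε hεa (X, Int.fract Y) (mem_S hX)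
    · rw [piece_fderiv_r hsm ρ F β hε P]
      have h1 := hM1' X Y hX
      have h2 : |σ * ε * fderiv ℝ w (X, Y) (1, 0)| ≤ ε * M1 := by
        rw [abs_mul, abs_mul, hσa, one_mul, abs_of_pos hε]
        exact mul_le_mul_of_nonneg_left h1 hε.le
      have h3 := abs_add_le β (σ * ε * fderiv ℝ w (X, Y) (1, 0))
      have h4 : ε * M1 ≤ 1 / 2 := by nlinarith
      linarith
    · rw [piece_fderiv_t hsm hσ2 ρ F β hε P]
      have h1 := hM2' X Y hX
      rw [abs_mul, abs_mul, abs_neg, abs_of_pos hε, abs_of_pos hρp]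
      have h2 : ε * ρ * |fderiv ℝ w (X, Y) (0, 1)| ≤ ε * ρ * M2 :=
        mul_le_mul_of_nonneg_left h1 (by positivity)
      nlinarith [mul_pos hε hρp]
  · intro r t t'
    have e : piece w σ ρ F β ε (r, t) - piece w σ ρ F β ε (r, t')
        = σ * ε ^ 2 * (w ((r - ρ) / ε, -σ * ρ * t / ε) - w ((r - ρ) / ε, -σ * ρ * t' / ε)) := by
      simp only [piece]
      ring
    rw [e, abs_mul, abs_mul, hσa, one_mul, abs_of_pos (by positivity : (0:ℝ) < ε ^ 2)]
    by_cases hX : 1 ≤ |(r - ρ) / ε|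
    · rw [hw.outer _ _ hX, hw.outer _ _ hX, sub_self, abs_zero, mul_zero]
      norm_num
    · have hX' : |(r - ρ) / ε| ≤ 1 := (not_le.1 hX).le
      have h1 := hM0' _ (-σ * ρ * t / ε) hX'
      have h2 := hM0' _ (-σ * ρ * t' / ε) hX'
      have h3 : |w ((r - ρ) / ε, -σ * ρ * t / ε) - w ((r - ρ) / ε, -σ * ρ * t' / ε)| ≤ 2 * M0 :=
        (abs_sub _ _).trans (by linarith)
      have h4 : ε ^ 2 ≤ ε := by nlinarith
      calc ε ^ 2 * |w ((r - ρ) / ε, -σ * ρ * t / ε) - w ((r - ρ) / ε, -σ * ρ * t' / ε)|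
          ≤ ε ^ 2 * (2 * M0) := mul_le_mul_of_nonneg_left h3 (by positivity)
        _ ≤ ε * (2 * M0) := mul_le_mul_of_nonneg_right h4 (by positivity)
        _ ≤ 1 := by nlinarith

end Pool.Agent.Helper98.MW
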