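import Pool.Agent.Helper98.MW.E.Seq

/-! MW-E07. The radii tend to infinity, and the slope bounds.
* `RR_unbounded`: if `RR j ≤ B` for all `j` then `RR (j+1) - RR j ≥ 1/(32 (B+1)^3)`, so `RR j ≥ 1 + j/(32 (B+1)^3)`:
  contradiction for large `j`; `RR` is monotone, and `rho k ≥ RR (k/2)`.
* `slope_bound`: for `rho k ≤ r ≤ rho (k+1)`: `0 ≤ be k - 2 sg k (r - rho k) ≤ 2 dl R = 1/(32 (R+1)^3)`, `R = RR (k/2)`
  (`k` even: `= 2 (r - R)`; `k` odd: `= 2 dl R - 2 (r - R - dl R)`), and `r ≤ R + 2 dl R ≤ R + 1`.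
* `wall_drift`: `be k ≤ 1/(32 (R+1)^3)`, `rho k ≤ R + 1`: `|sg k * be k / rho k| ≤ 1/(32 rho^4)`. -/

namespace Pool.Agent.Helper98.MW

open Filter

private lemma dl_pos {R : ℝ} (h : 1 ≤ R) : 0 < dl R := by
  unfold dl
  positivity

private lemma dl_le {R : ℝ} (h : 1 ≤ R) : dl R ≤ 1 / 2 := by
  unfold dl
  have h1 : (1 : ℝ) ≤ (R + 1) ^ 3 := one_le_pow₀ (by linarith)
  rw [div_le_div_iff₀ (by positivity) (by norm_num)]
  nlinarith

private lemma RR_pow (j : ℕ) : (j : ℝ) / 8 ≤ (RR j + 1) ^ 4 := by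
  induction j with
  | zero =>
    have := one_le_RR 0
    simp only [Nat.cast_zero, zero_div]
    positivity
  | succ j ih =>
    have h1 := one_le_RR j
    have hR : RR (j + 1) = RR j + 2 * dl (RR j) := rfl
    have hd := dl_pos h1
    have hdd : dl (RR j) * (64 * (RR j + 1) ^ 3) = 1 := by
      unfold dl
      have : (RR j + 1) ^ 3 ≠ 0 := by positivity
      field_simp
    rw [hR]
    push_cast
    set a := RR j + 1 with ha
    have ha0 : 0 < a := by linarith
    have h2 : a ^ 4 + 8 * (dl (RR j) * a ^ 3) ≤ (RR j + 2 * dl (RR j) + 1) ^ 4 := by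
      have : RR j + 2 * dl (RR j) + 1 = a + 2 * dl (RR j) := by rw [ha]; ring
      rw [this]
      have e : (a + 2 * dl (RR j)) ^ 4 = a ^ 4 + 8 * (dl (RR j) * a ^ 3) +
        (24 * a ^ 2 * dl (RR j) ^ 2 + 32 * a * dl (RR j) ^ 3 + 16 * dl (RR j) ^ 4) := by ring
      rw [e]
      have : 0 ≤ 24 * a ^ 2 * dl (RR j) ^ 2 + 32 * a * dl (RR j) ^ 3 + 16 * dl (RR j) ^ 4 := by
        positivity
      linarith
    have h3 : dl (RR j) * a ^ 3 = 1 / 64 := by
      have : dl (RR j) * (64 * a ^ 3) = 1 := hdd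
      linarith
    rw [h3] at h2
    linarith

private lemma RR_tendsto : Tendsto RR atTop atTop := by
  rw [tendsto_atTop]
  intro B
  obtain ⟨N, hN⟩ := exists_nat_gt (8 * (|B| + 1) ^ 4)
  filter_upwards [eventually_ge_atTop N] with j hj
  by_contra hcon
  push Not at hcon
  have h1 := RR_pow j
  have h2 := one_le_RR j
  have h3 : RR j + 1 ≤ |B| + 1 := by linarith [le_abs_self B]
  have h4 : (RR j + 1) ^ 4 ≤ (|B| + 1) ^ 4 := pow_le_pow_left₀ (by linarith) h3 4
  have h5 : (N : ℝ) ≤ j := by exact_mod_cast hj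
  linarith

private lemma RR_le_rho (k : ℕ) : RR (k / 2) ≤ rho k := by
  unfold rho
  split_ifs
  · exact le_refl _
  · have := dl_pos (one_le_RR (k / 2))
    linarith

private lemma rho_le (k : ℕ) : rho k ≤ RR (k / 2) + dl (RR (k / 2)) := by
  unfold rho
  split_ifs
  · have := dl_pos (one_le_RR (k / 2))
    linarith
  · exact le_refl _

theorem rho_tendsto : Tendsto rho atTop atTop := by
  refine tendsto_atTop_mono RR_le_rho ?_
  exact RR_tendsto.comp (Nat.tendsto_div_const_atTop (by norm_num))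

theorem slope_bound {k : ℕ} {r : ℝ} (h1 : rho k ≤ r) (h2 : r ≤ rho (k + 1)) :
    |be k - 2 * sg k * (r - rho k)| ≤ 1 / (4 * r ^ 3) := by
  rw [rho_succ] at h2
  have hR := one_le_RR (k / 2)
  have hd := dl_pos hR
  have hdl := dl_le hR
  have hr0 : 1 ≤ r := (one_le_rho k).trans h1
  have hrl := rho_le k
  have hdd : dd k = dl (RR (k / 2)) := rfl
  rw [hdd] at h2
  set R := RR (k / 2) with hRdef
  have hr : r ≤ R + 1 := by linarith
  have hb : 2 * dl R ≤ 1 / (4 * r ^ 3) := by
    have h3 : r ^ 3 ≤ (R + 1) ^ 3 := pow_le_pow_left₀ (by linarith) hr 3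
    have h4 : 2 * dl R = 1 / (32 * (R + 1) ^ 3) := by
      unfold dl
      have : (R + 1) ^ 3 ≠ 0 := by positivity
      field_simp
      norm_num
    rw [h4]
    apply one_div_le_one_div_of_le (by positivity)
    have : 0 < (R + 1) ^ 3 := by positivity
    linarith
  refine le_trans ?_ hb
  rw [abs_le]
  unfold be sg
  rw [← hRdef]
  split_ifs <;> constructor <;> nlinarith

theorem wall_drift (k : ℕ) : |sg k * be k / rho k| ≤ (1 / rho k ^ 2) ^ 2 / 16 := by
  have hR := one_le_RR (k / 2)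
  have hd := dl_pos hR
  have hdl := dl_le hR
  have hr0 : 1 ≤ rho k := one_le_rho k
  have hrl := rho_le k
  have hbe : |be k| ≤ 2 * dl (RR (k / 2)) := by
    unfold be
    split_ifs
    · rw [abs_zero]
      positivity
    · rw [abs_of_pos (by positivity)]
  have hsg : |sg k| = 1 := by
    rcases sg_cases k with h | h <;> rw [h] <;> simp
  rw [abs_div, abs_mul, hsg, one_mul, abs_of_pos (by linarith : (0 : ℝ) < rho k)]
  set R := RR (k / 2) with hRdef
  have hr : rho k ≤ R + 1 := by linarith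
  have h3 : rho k ^ 3 ≤ (R + 1) ^ 3 := pow_le_pow_left₀ (by linarith) hr 3
  have h4 : 2 * dl R = 1 / (32 * (R + 1) ^ 3) := by
    unfold dl
    have : (R + 1) ^ 3 ≠ 0 := by positivity
    field_simp
    norm_num
  have h5 : |be k| ≤ 1 / (16 * rho k ^ 3) := by
    refine hbe.trans ?_
    rw [h4]
    apply one_div_le_one_div_of_le (by positivity)
    have : 0 < (R + 1) ^ 3 := by positivity
    linarith
  have h6 : (1 / rho k ^ 2) ^ 2 / 16 = 1 / (16 * rho k ^ 3) / rho k := by
    have : rho k ≠ 0 := by linarith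
    field_simp
  rw [h6]
  exact div_le_div_of_nonneg_right h5 (by linarith)

end Pool.Agent.Helper98.MW
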