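import Pool.Agent.Helper98.MW.A.Tube
import Pool.Agent.Helper98.MW.A.Add
import Pool.Agent.Helper98.MW.A.Comp
import Pool.Agent.Helper98.MW.E.PieceOuter

/-! MW-E04. The first piece near `r = 1`. `startPiece ε (r, t) = ε^2 h ((r-1)/ε)`, `h X = X^2 S(X)`, `S = smoothTransition`.
At `r = 1 + ε X`: `h11 = h'' X`, `h12 = -1/r^2`, `h22 = ε h' X / r`; at `ε = 0`: `(h'' X, -1, 0)`, `Good`. `good_tube` with
`S = [-1,1]`. `|∂_r| = ε |h' X| ≤ 1` for small `ε`, `∂_t = 0`. -/

namespace Pool.Agent.Helper98.MW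

/-- the profile of the first piece -/
noncomputable def stH (X : ℝ) : ℝ := X ^ 2 * Real.smoothTransition X

theorem contDiff_stH : ContDiff ℝ (⊤ : ℕ∞) stH := by
  unfold stH
  exact (contDiff_id.pow 2).mul Real.smoothTransition.contDiff

/-- the affine map `(r, t) ↦ (r - 1)/ε` (linear part) -/
noncomputable def stL (ε : ℝ) : (ℝ × ℝ) →L[ℝ] ℝ := (1 / ε) • ContinuousLinearMap.fst ℝ ℝ ℝ

theorem startPiece_eq {ε : ℝ} (hε : 0 < ε) :
    startPiece ε = fun P : ℝ × ℝ => ε ^ 2 * stH (stL ε P + (-(1 / ε))) := by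
  funext P
  have h1 : stL ε P + (-(1 / ε)) = (P.1 - 1) / ε := by
    simp [stL]
    field_simp
    ring
  rw [h1]
  unfold startPiece stH
  field_simp

theorem contDiff_stLc (ε : ℝ) :
    ContDiff ℝ (⊤ : ℕ∞) (fun P : ℝ × ℝ => stH (stL ε P + (-(1 / ε)))) :=
  contDiff_stH.comp ((stL ε).contDiff.add contDiff_const)

theorem stL_arg {ε : ℝ} (hε : 0 < ε) (P : ℝ × ℝ) : stL ε P + (-(1 / ε)) = (P.1 - 1) / ε := by
  simp [stL]
  field_simp
  ring

theorem stL_10 (ε : ℝ) : stL ε ((1 : ℝ), (0 : ℝ)) = 1 / ε := by simp [stL]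

theorem stL_01 (ε : ℝ) : stL ε ((0 : ℝ), (1 : ℝ)) = 0 := by simp [stL]

theorem H2_start {ε : ℝ} (hε : 0 < ε) (P v u : ℝ × ℝ) :
    H2 (startPiece ε) P v u
      = ε ^ 2 * H2 stH ((P.1 - 1) / ε) (stL ε v) (stL ε u) := by
  rw [startPiece_eq hε, H2_const_mul (contDiff_stLc ε), H2_comp_affine contDiff_stH,
    stL_arg hε]

theorem H2_stH (X a b : ℝ) : H2 stH X a b = a * b * H2 stH X 1 1 := by
  unfold H2
  have h1 : (fderiv ℝ (fderiv ℝ stH) X) a = a • (fderiv ℝ (fderiv ℝ stH) X) 1 := by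
    rw [← map_smul]; simp
  rw [h1]
  simp only [ContinuousLinearMap.smul_apply]
  have h2 : ((fderiv ℝ (fderiv ℝ stH) X) 1) b = b • ((fderiv ℝ (fderiv ℝ stH) X) 1) 1 := by
    rw [← map_smul]; simp
  rw [h2]
  simp only [smul_eq_mul]
  ring

theorem fderiv_start {ε : ℝ} (hε : 0 < ε) (P v : ℝ × ℝ) :
    fderiv ℝ (startPiece ε) P v = ε ^ 2 * fderiv ℝ stH ((P.1 - 1) / ε) (stL ε v) := by
  rw [startPiece_eq hε]
  have hd : DifferentiableAt ℝ stH (stL ε P + (-(1 / ε))) :=
    contDiff_stH.differentiable (by simp) _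
  have h1 : HasFDerivAt (fun Q : ℝ × ℝ => stL ε Q + (-(1 / ε))) (stL ε) P :=
    (stL ε).hasFDerivAt.add_const _
  have h2 := (hd.hasFDerivAt.comp P h1).const_mul (ε ^ 2)
  have h3 := h2.fderiv
  simp only [Function.comp_def] at h3
  rw [h3, stL_arg hε]
  simp

theorem fderiv_stH (X a : ℝ) : fderiv ℝ stH X a = a * fderiv ℝ stH X 1 := by
  have h1 : (fderiv ℝ stH X) a = a • (fderiv ℝ stH X) 1 := by
    rw [← map_smul]; simp
  rw [h1, smul_eq_mul]

theorem start_inner : ∃ ε0 > 0, ∀ ε : ℝ, 0 < ε → ε ≤ ε0 →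
    ∀ P : ℝ × ℝ, |P.1 - 1| ≤ ε → Adm (startPiece ε) P := by
  have hc1 : Continuous (fderiv ℝ stH) := contDiff_stH.continuous_fderiv (by simp)
  have hc1' : ContDiff ℝ (⊤ : ℕ∞) (fderiv ℝ stH) := contDiff_stH.fderiv_right (by simp)
  have hc2 : Continuous (fderiv ℝ (fderiv ℝ stH)) := hc1'.continuous_fderiv (by simp)
  have hd1 : Continuous fun X : ℝ => fderiv ℝ stH X 1 := hc1.clm_apply continuous_const
  have hd2 : Continuous fun X : ℝ => H2 stH X 1 1 :=
    (hc2.clm_apply continuous_const).clm_apply continuous_const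
  have hS : IsCompact (Set.Icc (-1 : ℝ) 1) := isCompact_Icc
  obtain ⟨δ, hδ, hgood⟩ := good_tube (K := ℝ) hS
    (f := fun q => H2 stH q.2 1 1) (g := fun q => -1 / (1 + q.1 * q.2) ^ 2)
    (h := fun q => q.1 * fderiv ℝ stH q.2 1 / (1 + q.1 * q.2))
    (fun k _ => (hd2.comp continuous_snd).continuousAt)
    (fun k _ => by
      apply ContinuousAt.div continuousAt_const
      · fun_prop
      · simp)
    (fun k _ => by
      apply ContinuousAt.div
      · exact (continuous_fst.mul (hd1.comp continuous_snd)).continuousAt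
      · fun_prop
      · simp)
    (fun k _ => by
      constructor
      · norm_num
      · norm_num
        nlinarith [sq_nonneg (H2 stH k 1 1)])
  obtain ⟨M, hM⟩ := hS.exists_bound_of_continuousOn hd1.continuousOn
  have hM0 : 0 ≤ M := le_trans (norm_nonneg _) (hM 0 (by norm_num))
  refine ⟨min (δ / 2) (1 / (M + 1)), lt_min (by positivity) (by positivity), ?_⟩
  intro ε hε hle P hP
  have hεδ : |ε| < δ := by
    rw [abs_of_pos hε]
    have := le_trans hle (min_le_left _ _)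
    linarith
  have hεM : ε * M ≤ 1 := by
    have h1 := le_trans hle (min_le_right _ _)
    have h2 : ε * (M + 1) ≤ 1 := by
      rwa [le_div_iff₀ (by positivity)] at h1
    nlinarith
  set X : ℝ := (P.1 - 1) / ε with hX
  have hXm : X ∈ Set.Icc (-1 : ℝ) 1 := by
    rw [Set.mem_Icc, ← abs_le, hX, abs_div, abs_of_pos hε, div_le_one hε]
    exact hP
  have hr : P.1 = 1 + ε * X := by
    rw [hX]; field_simp; ring
  have hg := hgood ε hεδ X hXm
  simp only at hg
  have e11 : h11 (startPiece ε) P = H2 stH X 1 1 := by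
    unfold h11
    rw [H2_start hε, stL_10, H2_stH, ← hX]
    field_simp
  have f01 : fderiv ℝ (startPiece ε) P (0, 1) = 0 := by
    rw [fderiv_start hε, stL_01]; simp
  have f10 : fderiv ℝ (startPiece ε) P (1, 0) = ε * fderiv ℝ stH X 1 := by
    rw [fderiv_start hε, stL_10, fderiv_stH, ← hX]
    field_simp
  have g01 : H2 (startPiece ε) P (1, 0) (0, 1) = 0 := by
    rw [H2_start hε, stL_01, stL_10, H2_stH]; simp
  have g11 : H2 (startPiece ε) P (0, 1) (0, 1) = 0 := by
    rw [H2_start hε, stL_01, H2_stH]; simp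
  have e12 : h12 (startPiece ε) P = -1 / (1 + ε * X) ^ 2 := by
    unfold h12
    rw [g01, f01, hr]
    ring
  have e22 : h22 (startPiece ε) P = ε * fderiv ℝ stH X 1 / (1 + ε * X) := by
    unfold h22
    rw [g11, f10, hr]
    ring
  refine ⟨?_, ?_, ?_⟩
  · rw [e11, e12, e22]
    exact hg
  · rw [f10, abs_mul, abs_of_pos hε]
    have := hM X hXm
    rw [Real.norm_eq_abs] at this
    exact le_trans (mul_le_mul_of_nonneg_left this hε.le) hεM
  · rw [f01]; simp

end Pool.Agent.Helper98.MW
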