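import Pool.Agent.Helper98.MW.D.Single
import Pool.Agent.Helper98.MW.E.PieceInner
import Pool.Agent.Helper98.MW.E.Start
import Pool.Agent.Helper98.MW.E.SeqBound

/-! MW-E09. Choice of all pieces. For `k = 0`: `G 0 = startPiece (e 0)`. For `k ≥ 1`: a wall `w_k` of drift
`(1/ρ_k^2, sg k * be k/ρ_k)` exists by `exists_wall` (`0 < 1/ρ^2 ≤ 1`, `wall_drift`), `G k = piece w_k (sg k) (rho k) (FF k)
(be k) (e k)` with `e k` smaller than the `ε0` of `piece_inner`, `dd k / 4` and `dd (k-1)/4`. -/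

namespace Pool.Agent.Helper98.MW

theorem exists_pieces : ∃ (G : ℕ → ℝ × ℝ → ℝ) (e : ℕ → ℝ),
    (∀ k, 0 < e k ∧ e k < dd k / 4 ∧ e (k + 1) < dd k / 4) ∧
    (∀ k, ContDiff ℝ (⊤ : ℕ∞) (G k)) ∧
    (∀ k P, (0 < k ∨ rho k ≤ P.1) → e k ≤ |P.1 - rho k| →
      G k P = quad (sg k) (rho k) (FF k) (be k) P) ∧
    (∀ P : ℝ × ℝ, P.1 ≤ 1 → G 0 P = 0) ∧
    (∀ k P, |P.1 - rho k| ≤ e k → Adm (G k) P) ∧
    (∀ k (r t t' : ℝ), |G k (r, t) - G k (r, t')| ≤ 1) := by
  have hw : ∀ k : ℕ, ∃ w, Wall (1 / rho k ^ 2) (sg k * be k / rho k) w := by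
    intro k
    have h1 : 1 ≤ rho k := one_le_rho k
    have h2 : (1 : ℝ) ≤ rho k ^ 2 := by nlinarith
    refine exists_wall ?_ ?_ (wall_drift k)
    · positivity
    · rw [div_le_one (by positivity)]
      exact h2
  choose w hw using hw
  have hp : ∀ k : ℕ, ∃ ε0 > 0, ∀ ε : ℝ, 0 < ε → ε ≤ ε0 →
      (∀ P : ℝ × ℝ, |P.1 - rho k| ≤ ε → Adm (piece (w k) (sg k) (rho k) (FF k) (be k) ε) P) ∧
      (∀ r t t' : ℝ, |piece (w k) (sg k) (rho k) (FF k) (be k) ε (r, t)
        - piece (w k) (sg k) (rho k) (FF k) (be k) ε (r, t')| ≤ 1) :=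
    fun k => piece_inner (sg_cases k) (one_le_rho k) (abs_be k) (hw k) (FF k)
  choose δ hδ hin using hp
  obtain ⟨δ0, hδ0, hst⟩ := start_inner
  let e : ℕ → ℝ := fun k => min (min (δ k) δ0) (min (dd k) (dd (k - 1))) / 8
  have hdd : ∀ k, 0 < dd k := dd_pos
  have hm : ∀ k, 0 < min (min (δ k) δ0) (min (dd k) (dd (k - 1))) := fun k =>
    lt_min (lt_min (hδ k) hδ0) (lt_min (hdd _) (hdd _))
  have he0 : ∀ k, 0 < e k := fun k => by
    have := hm k
    show 0 < min (min (δ k) δ0) (min (dd k) (dd (k - 1))) / 8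
    linarith
  have he1 : ∀ k, e k ≤ δ k := fun k => by
    have h1 := hm k
    have h2 : min (min (δ k) δ0) (min (dd k) (dd (k - 1))) ≤ δ k :=
      (min_le_left _ _).trans (min_le_left _ _)
    show min (min (δ k) δ0) (min (dd k) (dd (k - 1))) / 8 ≤ δ k
    linarith
  have he2 : ∀ k, e k ≤ δ0 := fun k => by
    have h1 := hm k
    have h2 : min (min (δ k) δ0) (min (dd k) (dd (k - 1))) ≤ δ0 :=
      (min_le_left _ _).trans (min_le_right _ _)
    show min (min (δ k) δ0) (min (dd k) (dd (k - 1))) / 8 ≤ δ0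
    linarith
  have he3 : ∀ k, e k < dd k / 4 := fun k => by
    have h1 := hm k
    have h2 : min (min (δ k) δ0) (min (dd k) (dd (k - 1))) ≤ dd k :=
      (min_le_right _ _).trans (min_le_left _ _)
    have h3 := hdd k
    show min (min (δ k) δ0) (min (dd k) (dd (k - 1))) / 8 < dd k / 4
    linarith
  have he4 : ∀ k, e (k + 1) < dd k / 4 := fun k => by
    have h1 := hm (k + 1)
    have h2 : min (min (δ (k + 1)) δ0) (min (dd (k + 1)) (dd (k + 1 - 1))) ≤ dd k :=
      (min_le_right _ _).trans (min_le_right _ _)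
    have h3 := hdd k
    show min (min (δ (k + 1)) δ0) (min (dd (k + 1)) (dd (k + 1 - 1))) / 8 < dd k / 4
    linarith
  let G : ℕ → ℝ × ℝ → ℝ := fun k => Nat.casesOn k (startPiece (e 0))
    (fun j => piece (w (j + 1)) (sg (j + 1)) (rho (j + 1)) (FF (j + 1)) (be (j + 1)) (e (j + 1)))
  refine ⟨G, e, fun k => ⟨he0 k, he3 k, he4 k⟩, ?_, ?_, ?_, ?_, ?_⟩
  · intro k
    cases k with
    | zero => exact contDiff_startPiece (e 0)
    | succ j => exact contDiff_piece (hw (j + 1)) _ _ _ _ _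
  · intro k P h1 h2
    cases k with
    | zero =>
      have h3 : rho 0 ≤ P.1 := by
        rcases h1 with h1 | h1
        · exact absurd h1 (lt_irrefl _)
        · exact h1
      rw [rho_zero] at h3 h2
      rw [abs_of_nonneg (by linarith)] at h2
      have h4 : startPiece (e 0) P = quad (-1) 1 0 0 P := startPiece_right (he0 0) (by linarith)
      have h5 : sg 0 = -1 := by simp [sg]
      have h6 : FF 0 = 0 := by simp [FF]
      have h7 : be 0 = 0 := by simp [be]
      rw [rho_zero, h5, h6, h7]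
      exact h4
    | succ j => exact piece_outer (hw (j + 1)) _ _ _ _ (he0 (j + 1)) h2
  · intro P hP
    exact startPiece_left (he0 0) hP
  · intro k P hP
    cases k with
    | zero =>
      rw [rho_zero] at hP
      exact hst (e 0) (he0 0) (he2 0) P hP
    | succ j => exact (hin (j + 1) (e (j + 1)) (he0 _) (he1 _)).1 P hP
  · intro k r t t'
    cases k with
    | zero =>
      have h : startPiece (e 0) (r, t) - startPiece (e 0) (r, t') = 0 := by
        simp [startPiece]
      show |startPiece (e 0) (r, t) - startPiece (e 0) (r, t')| ≤ 1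
      rw [h]
      simp
    | succ j => exact (hin (j + 1) (e (j + 1)) (he0 _) (he1 _)).2 r t t'

end Pool.Agent.Helper98.MW
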