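import Pool.Agent.Helper98.MW.E.QuadAdm
import Pool.Agent.Helper98.MW.E.Match
import Pool.Agent.Helper98.MW.E.Pieces
import Pool.Agent.Helper98.MW.E.Glue

/-! MW-E11. The corrugation. `glue` with `m k = rho k + dd k / 2`; for `|P.1 - m k| < dd k / 8`, `P.1` lies between the walls
at distance more than `e k`, `e (k+1)` from them, so both pieces are quadratics which agree (`quad_match`).
At `P` with `g = G k` near `P`, `m (k-1) < P.1 ≤ m k` (resp. `P.1 ≤ m 0`):
* `|P.1 - rho k| ≤ e k`: `Adm_congr`;
* `rho k + e k < P.1 ≤ m k`: near `P`, `G k = FF k + be k (r - rho k) - sg k (r - rho k)^2`; `quad_adm` with `s = -sg k`,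
  `slope_bound`;
* `m (k-1) < P.1 < rho k - e k`, `k ≥ 1`: near `P`, `G k` is the quadratic of the wall `k`, which equals that of the wall
  `k - 1` (`quad_match`); `quad_adm`, `slope_bound` for `k - 1`;
* `k = 0`, `P.1 < 1 - e 0`: excluded by `1 ≤ P.1`.
`g P = 0` for `P.1 ≤ 1 = rho 0 < m 0`: the index is `0`. The oscillation bound holds for every `G k`; note that the index `k`
depends only on `P.1`: use for `(r, t)` and `(r, t')` the characterisation `P.1 ≤ m k ∧ ∀ j < k, m j < P.1`, which determines
`k`. -/

namespace Pool.Agent.Helper98.MW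

open Topology Filter

private theorem neg_sg_cases (k : ℕ) : -sg k = 1 ∨ -sg k = -1 := by
  rcases sg_cases k with h | h
  · right; rw [h]
  · left; rw [h]; norm_num

theorem exists_corrugation : ∃ g : ℝ × ℝ → ℝ, ContDiff ℝ (⊤ : ℕ∞) g ∧
    (∀ P : ℝ × ℝ, P.1 ≤ 1 → g P = 0) ∧
    (∀ P : ℝ × ℝ, 1 ≤ P.1 → Adm g P) ∧
    (∀ r t t' : ℝ, |g (r, t) - g (r, t')| ≤ 1) := by
  obtain ⟨G, e, he, hG, hout, hzero, hadm, hosc⟩ := exists_pieces
  obtain ⟨m, hmdef⟩ : ∃ m : ℕ → ℝ, ∀ k, m k = rho k + dd k / 2 := ⟨_, fun k => rfl⟩
  have hmono : StrictMono m := strictMono_nat_of_lt_succ (fun k => by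
    have h1 := rho_succ k
    have h2 := dd_pos k
    have h3 := dd_pos (k + 1)
    rw [hmdef, hmdef, h1]
    linarith)
  have htend : Tendsto m atTop atTop := tendsto_atTop_mono (fun k => by
    have := dd_pos k
    rw [hmdef]
    linarith) rho_tendsto
  have hagree : ∀ k, ∃ τ > 0, ∀ P : ℝ × ℝ, |P.1 - m k| < τ → G k P = G (k + 1) P := by
    intro k
    have hd := dd_pos k
    have hs := rho_succ k
    obtain ⟨h1, h2, h3⟩ := he k
    refine ⟨dd k / 8, by linarith, fun P hP => ?_⟩
    rw [abs_lt, hmdef] at hP
    obtain ⟨hP1, hP2⟩ := hP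
    have ha : e k ≤ |P.1 - rho k| := by
      rw [abs_of_nonneg (by linarith)]
      linarith
    have hb : e (k + 1) ≤ |P.1 - rho (k + 1)| := by
      rw [hs, abs_of_nonpos (by linarith)]
      linarith
    rw [hout k P (Or.inr (by linarith)) ha, hout (k + 1) P (Or.inl (Nat.succ_pos k)) hb]
    exact quad_match (by linarith) (by rw [hs]; linarith)
  obtain ⟨g, hg, hloc⟩ := glue hmono htend hG hagree
  refine ⟨g, hg, ?_, ?_, ?_⟩
  · intro P hP
    obtain ⟨k, hk, h1, h2⟩ := hloc P
    have hk0 : k = 0 := by
      by_contra hne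
      have h3 := h2 0 (Nat.pos_of_ne_zero hne)
      rw [hmdef, rho_zero] at h3
      have := dd_pos 0
      linarith
    subst hk0
    rw [hk.eq_of_nhds]
    exact hzero P hP
  · intro P hP
    obtain ⟨k, hk, h1, h2⟩ := hloc P
    refine Adm_congr hk.symm ?_
    by_cases hc : |P.1 - rho k| ≤ e k
    · exact hadm k P hc
    · rw [not_le] at hc
      rcases le_or_gt (rho k) P.1 with hr | hr
      · rw [abs_of_nonneg (by linarith)] at hc
        have he0 := (he k).1
        have hev : G k =ᶠ[𝓝 P]
            fun Q => FF k + be k * (Q.1 - rho k) + (-sg k) * (Q.1 - rho k) ^ 2 := by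
          have hn : ∀ᶠ Q : ℝ × ℝ in 𝓝 P, rho k + e k < Q.1 :=
            (continuous_fst.tendsto P).eventually (lt_mem_nhds (by linarith))
          filter_upwards [hn] with Q hQ
          have ha : e k ≤ |Q.1 - rho k| := by
            rw [abs_of_nonneg (by linarith)]
            linarith
          rw [hout k Q (Or.inr (by linarith)) ha]
          unfold quad
          rw [abs_of_nonneg (by linarith : (0 : ℝ) ≤ Q.1 - rho k)]
          ring
        refine quad_adm (neg_sg_cases k) hev hP ?_
        have hsl := slope_bound (k := k) (r := P.1) hr (by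
          rw [rho_succ]
          rw [hmdef] at h1
          have := dd_pos k
          linarith)
        have heq : be k + 2 * -sg k * (P.1 - rho k) = be k - 2 * sg k * (P.1 - rho k) := by ring
        rw [heq]
        exact hsl
      · rw [abs_of_neg (by linarith)] at hc
        rcases Nat.eq_zero_or_pos k with hk0 | hk0
        · subst hk0
          rw [rho_zero] at hr
          exact absurd hP (not_le.2 hr)
        · obtain ⟨j, rfl⟩ : ∃ j, k = j + 1 := ⟨k - 1, by omega⟩
          have h3 := h2 j (Nat.lt_succ_self j)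
          have hd := dd_pos j
          have he0 := (he (j + 1)).1
          rw [hmdef] at h3
          have hev : G (j + 1) =ᶠ[𝓝 P]
              fun Q => FF j + be j * (Q.1 - rho j) + (-sg j) * (Q.1 - rho j) ^ 2 := by
            have hn1 : ∀ᶠ Q : ℝ × ℝ in 𝓝 P, rho j < Q.1 :=
              (continuous_fst.tendsto P).eventually (lt_mem_nhds (by linarith))
            have hn2 : ∀ᶠ Q : ℝ × ℝ in 𝓝 P, Q.1 < rho (j + 1) - e (j + 1) :=
              (continuous_fst.tendsto P).eventually (gt_mem_nhds (by linarith))
            filter_upwards [hn1, hn2] with Q hQ1 hQ2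
            have ha : e (j + 1) ≤ |Q.1 - rho (j + 1)| := by
              rw [abs_of_nonpos (by linarith)]
              linarith
            rw [hout (j + 1) Q (Or.inl (Nat.succ_pos j)) ha,
              ← quad_match (k := j) (P := Q) hQ1.le (by linarith)]
            unfold quad
            rw [abs_of_nonneg (by linarith : (0 : ℝ) ≤ Q.1 - rho j)]
            ring
          refine quad_adm (neg_sg_cases j) hev hP ?_
          have hsl := slope_bound (k := j) (r := P.1) (by linarith) hr.le
          have heq : be j + 2 * -sg j * (P.1 - rho j) = be j - 2 * sg j * (P.1 - rho j) := by ring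
          rw [heq]
          exact hsl
  · intro r t t'
    obtain ⟨k, hk, h1, h2⟩ := hloc (r, t)
    obtain ⟨k', hk', h1', h2'⟩ := hloc (r, t')
    simp only at h1 h2 h1' h2'
    have hkk : k = k' := by
      rcases lt_trichotomy k k' with h | h | h
      · exact absurd h1 (not_le.2 (h2' k h))
      · exact h
      · exact absurd h1' (not_le.2 (h2 k' h))
    subst hkk
    rw [hk.eq_of_nhds, hk'.eq_of_nhds]
    exact hosc k r t t'

end Pool.Agent.Helper98.MW
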