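import Pool.Agent.Helper98.MW.Defs

/-! Project MW, block E: the corrugated helicoid `z = θ + g (r, θ)`; definitions. -/

namespace Pool.Agent.Helper98.MW

/-- entries of the Hessian of `θ + g (r, θ)` in the orthonormal polar frame -/
noncomputable def h11 (g : ℝ × ℝ → ℝ) (P : ℝ × ℝ) : ℝ := H2 g P (1, 0) (1, 0)

noncomputable def h12 (g : ℝ × ℝ → ℝ) (P : ℝ × ℝ) : ℝ :=
  H2 g P (1, 0) (0, 1) / P.1 - (1 + fderiv ℝ g P (0, 1)) / P.1 ^ 2

noncomputable def h22 (g : ℝ × ℝ → ℝ) (P : ℝ × ℝ) : ℝ :=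
  fderiv ℝ g P (1, 0) / P.1 + H2 g P (0, 1) (0, 1) / P.1 ^ 2

/-- `g` is admissible at the point `P = (r, θ)`. -/
structure Adm (g : ℝ × ℝ → ℝ) (P : ℝ × ℝ) : Prop where
  good : Good (h11 g P) (h12 g P) (h22 g P)
  dr : |fderiv ℝ g P (1, 0)| ≤ 1
  dt : |fderiv ℝ g P (0, 1)| ≤ 1

/-- a wall inserted at the circle `r = ρ`, scale `ε` -/
noncomputable def piece (w : ℝ × ℝ → ℝ) (σ ρ F β ε : ℝ) (P : ℝ × ℝ) : ℝ :=
  F + β * (P.1 - ρ) + σ * ε ^ 2 * w ((P.1 - ρ) / ε, -σ * ρ * P.2 / ε)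

/-- the radial two-sided quadratic -/
noncomputable def quad (σ ρ F β : ℝ) (P : ℝ × ℝ) : ℝ :=
  F + β * (P.1 - ρ) - σ * ((P.1 - ρ) * |P.1 - ρ|)

/-- the first piece: `0` for `r ≤ 1`, `(r - 1)^2` for `r ≥ 1 + ε` -/
noncomputable def startPiece (ε : ℝ) (P : ℝ × ℝ) : ℝ :=
  (P.1 - 1) ^ 2 * Real.smoothTransition ((P.1 - 1) / ε)

/-! ### The radii -/

noncomputable def dl (R : ℝ) : ℝ := 1 / (64 * (R + 1) ^ 3)

noncomputable def RR : ℕ → ℝ
  | 0 => 1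
  | (j + 1) => RR j + 2 * dl (RR j)

/-- distance between the walls `k` and `k + 1` -/
noncomputable def dd (k : ℕ) : ℝ := dl (RR (k / 2))

/-- radius of the wall `k` -/
noncomputable def rho (k : ℕ) : ℝ := if k % 2 = 0 then RR (k / 2) else RR (k / 2) + dl (RR (k / 2))

noncomputable def sg (k : ℕ) : ℝ := if k % 2 = 0 then -1 else 1

/-- slope at the wall `k` -/
noncomputable def be (k : ℕ) : ℝ := if k % 2 = 0 then 0 else 2 * dl (RR (k / 2))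

noncomputable def FF : ℕ → ℝ
  | 0 => 0
  | (k + 1) => FF k + be k * dd k - sg k * dd k ^ 2

end Pool.Agent.Helper98.MW
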