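import Pool.Agent.Helper98.MW.A.Tube
import Pool.Agent.Helper98.MW.A.Basic
import Pool.Agent.Helper98.MW.E.Defs

/-! MW-E05. Between the walls. If `g` is, near `P = (r, t)`, the function `A + B (r - ρ) + s (r - ρ)^2` with `s = 1` or `s = -1`,
then `h11 = 2 s`, `h12 = -1/r^2`, `h22 = q/r` with `q = B + 2 s (r - ρ)`. If `r ≥ 1`, `|q| ≤ 1/(4 r^3)`:
`2 s q / r ≤ 1/(2 r^4) < 1/r^4`, norm² `≥ 4`. So `g` is admissible. -/

namespace Pool.Agent.Helper98.MW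

open Topology

theorem Adm_congr {g g' : ℝ × ℝ → ℝ} {P : ℝ × ℝ} (h : g =ᶠ[𝓝 P] g') (hg : Adm g P) :
    Adm g' P := by
  have hf : fderiv ℝ g P = fderiv ℝ g' P := h.fderiv_eq
  have h1 : h11 g' P = h11 g P := by
    unfold h11; rw [H2_congr h]
  have h2 : h12 g' P = h12 g P := by
    unfold h12; rw [H2_congr h, hf]
  have h3 : h22 g' P = h22 g P := by
    unfold h22; rw [H2_congr h, hf]
  refine ⟨?_, ?_, ?_⟩
  · rw [h1, h2, h3]; exact hg.good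
  · rw [← hf]; exact hg.dr
  · rw [← hf]; exact hg.dt

theorem quad_hasFDerivAt (A B ρ s : ℝ) (Q : ℝ × ℝ) :
    HasFDerivAt (fun Q : ℝ × ℝ => A + B * (Q.1 - ρ) + s * (Q.1 - ρ) ^ 2)
      ((B + 2 * s * (Q.1 - ρ)) • ContinuousLinearMap.fst ℝ ℝ ℝ) Q := by
  have h0 : HasFDerivAt (fun Q : ℝ × ℝ => Q.1 - ρ) (ContinuousLinearMap.fst ℝ ℝ ℝ) Q :=
    (ContinuousLinearMap.fst ℝ ℝ ℝ).hasFDerivAt.sub_const ρ
  have h1 := ((h0.const_mul B).const_add A).add ((h0.pow 2).const_mul s)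
  refine h1.congr_fderiv ?_
  ext <;> simp <;> ring

theorem quad_fderiv (A B ρ s : ℝ) :
    fderiv ℝ (fun Q : ℝ × ℝ => A + B * (Q.1 - ρ) + s * (Q.1 - ρ) ^ 2)
      = fun Q : ℝ × ℝ => (B + 2 * s * (Q.1 - ρ)) • ContinuousLinearMap.fst ℝ ℝ ℝ := by
  funext Q
  exact (quad_hasFDerivAt A B ρ s Q).fderiv

theorem quad_H2 (A B ρ s : ℝ) (P v u : ℝ × ℝ) :
    H2 (fun Q : ℝ × ℝ => A + B * (Q.1 - ρ) + s * (Q.1 - ρ) ^ 2) P v u = 2 * s * v.1 * u.1 := by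
  unfold H2
  rw [quad_fderiv]
  have h0 : HasFDerivAt (fun Q : ℝ × ℝ => Q.1 - ρ) (ContinuousLinearMap.fst ℝ ℝ ℝ) P :=
    (ContinuousLinearMap.fst ℝ ℝ ℝ).hasFDerivAt.sub_const ρ
  have h1 : HasFDerivAt
      (fun Q : ℝ × ℝ => (B + 2 * s * (Q.1 - ρ)) • ContinuousLinearMap.fst ℝ ℝ ℝ)
      (((2 * s) • ContinuousLinearMap.fst ℝ ℝ ℝ).smulRight (ContinuousLinearMap.fst ℝ ℝ ℝ)) P :=
    HasFDerivAt.smul_const (F := ℝ × ℝ →L[ℝ] ℝ) ((h0.const_mul (2 * s)).const_add B)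
      (ContinuousLinearMap.fst ℝ ℝ ℝ)
  rw [h1.fderiv]
  simp [ContinuousLinearMap.smulRight_apply]

theorem quad_adm {g : ℝ × ℝ → ℝ} {P : ℝ × ℝ} {A B ρ s : ℝ} (hs : s = 1 ∨ s = -1)
    (hg : g =ᶠ[𝓝 P] fun Q => A + B * (Q.1 - ρ) + s * (Q.1 - ρ) ^ 2) (hP : 1 ≤ P.1)
    (hq : |B + 2 * s * (P.1 - ρ)| ≤ 1 / (4 * P.1 ^ 3)) : Adm g P := by
  refine Adm_congr hg.symm ?_
  set q : ℝ := B + 2 * s * (P.1 - ρ) with hqdef
  have hr : 0 < P.1 := by linarith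
  have hr3 : 1 ≤ P.1 ^ 3 := one_le_pow₀ hP
  have hq1 : |q| ≤ 1 / 4 := by
    refine hq.trans ?_
    apply one_div_le_one_div_of_le (by norm_num)
    linarith
  have hf1 : fderiv ℝ (fun Q : ℝ × ℝ => A + B * (Q.1 - ρ) + s * (Q.1 - ρ) ^ 2) P (1, 0) = q := by
    rw [quad_fderiv]; simp [hqdef]
  have hf2 : fderiv ℝ (fun Q : ℝ × ℝ => A + B * (Q.1 - ρ) + s * (Q.1 - ρ) ^ 2) P (0, 1) = 0 := by
    rw [quad_fderiv]; simp
  have e1 : h11 (fun Q : ℝ × ℝ => A + B * (Q.1 - ρ) + s * (Q.1 - ρ) ^ 2) P = 2 * s := by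
    unfold h11; rw [quad_H2]; ring
  have e2 : h12 (fun Q : ℝ × ℝ => A + B * (Q.1 - ρ) + s * (Q.1 - ρ) ^ 2) P
      = - (1 / P.1 ^ 2) := by
    unfold h12; rw [quad_H2, hf2]; ring
  have e3 : h22 (fun Q : ℝ × ℝ => A + B * (Q.1 - ρ) + s * (Q.1 - ρ) ^ 2) P = q / P.1 := by
    unfold h22; rw [quad_H2, hf1]; ring
  refine ⟨?_, ?_, ?_⟩
  · rw [e1, e2, e3]
    have hs2 : s ^ 2 = 1 := by rcases hs with h | h <;> rw [h] <;> norm_num
    have hsabs : |s| = 1 := by rcases hs with h | h <;> rw [h] <;> norm_num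
    refine ⟨?_, ?_⟩
    · have h1 : s * q ≤ 1 / (4 * P.1 ^ 3) := by
        calc s * q ≤ |s * q| := le_abs_self _
          _ = |q| := by rw [abs_mul, hsabs, one_mul]
          _ ≤ _ := hq
      have h2 : 2 * s * (q / P.1) = 2 * (s * q) / P.1 := by ring
      rw [h2]
      have h3 : (-(1 / P.1 ^ 2)) ^ 2 = 1 / P.1 ^ 4 := by
        field_simp
      rw [h3]
      calc 2 * (s * q) / P.1 ≤ 2 * (1 / (4 * P.1 ^ 3)) / P.1 := by
            apply div_le_div_of_nonneg_right _ hr.le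
            linarith
        _ = 1 / 2 * (1 / P.1 ^ 4) := by field_simp; norm_num
        _ < 1 / P.1 ^ 4 := by
            have : 0 < 1 / P.1 ^ 4 := by positivity
            linarith
    · have h4 : (2 * s) ^ 2 = 4 := by rw [mul_pow, hs2]; norm_num
      rw [h4]
      have h5 : 0 ≤ (-(1 / P.1 ^ 2)) ^ 2 := sq_nonneg _
      have h6 : 0 ≤ (q / P.1) ^ 2 := sq_nonneg _
      linarith
  · rw [hf1]; linarith
  · rw [hf2]; simp

end Pool.Agent.Helper98.MW
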