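import Pool.Agent.Helper98.MW.E.Defs

/-! MW-E06. The sequences. All statements by cases `k = 2 j`, `k = 2 j + 1` (`Nat.even_or_odd'`; `(2j)/2 = j`,
`(2j+1)/2 = j`, `(2j+2)/2 = j+1`). `RR j ≥ 1`, increasing. -/

namespace Pool.Agent.Helper98.MW

private theorem dl_pos' {R : ℝ} (h : 1 ≤ R) : 0 < dl R := by
  unfold dl
  have : 0 < R + 1 := by linarith
  positivity

theorem one_le_RR (j : ℕ) : 1 ≤ RR j := by
  induction j with
  | zero => simp [RR]
  | succ j ih =>
    have := dl_pos' ih
    simp only [RR]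
    linarith

theorem dd_pos (k : ℕ) : 0 < dd k := dl_pos' (one_le_RR _)

private theorem half_even (j : ℕ) : (2 * j) / 2 = j := by omega

private theorem half_odd (j : ℕ) : (2 * j + 1) / 2 = j := by omega

private theorem half_even2 (j : ℕ) : (2 * j + 1 + 1) / 2 = j + 1 := by omega

private theorem mod_even (j : ℕ) : (2 * j) % 2 = 0 := by omega

private theorem mod_odd (j : ℕ) : ¬ (2 * j + 1) % 2 = 0 := by omega

private theorem mod_even2 (j : ℕ) : (2 * j + 1 + 1) % 2 = 0 := by omega

theorem rho_succ (k : ℕ) : rho (k + 1) = rho k + dd k := by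
  obtain ⟨j, hj | hj⟩ := Nat.even_or_odd' k
  · subst hj
    simp only [rho, dd, half_even, half_odd, mod_even, mod_odd, if_true, if_false]
  · subst hj
    simp only [rho, dd, half_even2, half_odd, mod_even2, mod_odd, if_true, if_false, RR]
    ring

theorem be_succ (k : ℕ) : be (k + 1) = be k - 2 * sg k * dd k := by
  obtain ⟨j, hj | hj⟩ := Nat.even_or_odd' k
  · subst hj
    simp only [be, sg, dd, half_even, half_odd, mod_even, mod_odd, if_true, if_false]
    ring
  · subst hj
    simp only [be, sg, dd, half_odd, mod_even2, mod_odd, if_true, if_false]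
    ring

theorem sg_succ (k : ℕ) : sg (k + 1) = -sg k := by
  obtain ⟨j, hj | hj⟩ := Nat.even_or_odd' k
  · subst hj
    simp only [sg, mod_even, mod_odd, if_true, if_false]
    norm_num
  · subst hj
    simp only [sg, mod_even2, mod_odd, if_true, if_false]

theorem sg_cases (k : ℕ) : sg k = 1 ∨ sg k = -1 := by
  unfold sg
  split_ifs
  · right; rfl
  · left; rfl

theorem one_le_rho (k : ℕ) : 1 ≤ rho k := by
  unfold rho
  split_ifs
  · exact one_le_RR _
  · have h1 := one_le_RR (k / 2)
    have h2 := dl_pos' h1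
    linarith

theorem rho_zero : rho 0 = 1 := by
  simp [rho, RR]

theorem abs_be (k : ℕ) : |be k| ≤ 1 / 2 := by
  have h1 := one_le_RR (k / 2)
  have h2 := dl_pos' h1
  have h3 : dl (RR (k / 2)) ≤ 1 / 4 := by
    unfold dl
    have h4 : (1 : ℝ) ≤ (RR (k / 2) + 1) ^ 3 := one_le_pow₀ (by linarith)
    rw [div_le_div_iff₀ (by positivity) (by norm_num)]
    linarith
  unfold be
  split_ifs
  · simp
  · rw [abs_of_pos (by linarith)]
    linarith

end Pool.Agent.Helper98.MW
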